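import Pool.Agent.helper65.GF.SpecG

set_option autoImplicit false

/-! # Goodman's inequality for polynomials of Bazilevic functions of type 1/2: the last step -/

namespace Pool.Agent.GD

open Finset Metric Filter Topology

/-- `φ(z²) = F(z)²`, `F` odd and close-to-convex with respect to an odd starlike function. -/
structure Baz (φ : ℂ → ℂ) : Prop where
  analytic : DifferentiableOn ℂ φ (ball 0 1)
  half : ∃ (F G : ℂ → ℂ) (c : ℂ), DifferentiableOn ℂ F (ball 0 1) ∧ (∀ z ∈ ball (0 : ℂ) 1, F (-z) = -F z) ∧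
    OddStarl G ∧ (∀ z ∈ ball (0 : ℂ) 1, z ≠ 0 → 0 < (c * (z * deriv F z / G z)).re) ∧
    ∀ z ∈ ball (0 : ℂ) 1, φ (z ^ 2) = F z ^ 2

theorem inve_const (a : ℂ) : InvE 0 (fun _ => a) := by
  obtain ⟨hd, Φ, c, hG, hc⟩ := inv_const a
  refine ⟨hd, fun k => ?_, Φ, c, hG, fun k hk => ?_⟩
  · rw [hc (2 * k + 1) (by omega)]
    simp [cmb]
  · rw [hc (2 * k) (by omega)]
    simp [cmb]

/-- Multiples. -/
theorem inve_smul (p : ℕ) (h : ℂ → ℂ) (a : ℂ) (hh : InvE p h) : InvE p (fun z => a * h z) := by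
  obtain ⟨hd, h0, Φ, c, hG, hc⟩ := hh
  have hd' : DifferentiableOn ℂ (fun z => a * h z) (ball 0 1) := hd.const_mul a
  have hco : ∀ n, N2b689f5b.coeff (fun z => a * h z) n = a * N2b689f5b.coeff h n := fun n =>
    congrFun (CO2 _ _ _ (CO1 _ hd') (ITE_ser_mul a _ _ (CO1 _ hd))) n
  refine ⟨hd', fun k => ?_, Φ, fun m => a * c m, hG, fun n hn => ?_⟩
  · rw [hco, h0, mul_zero]
  · rw [hco, hc n hn]
    unfold cmb
    rw [Finset.mul_sum]
    exact Finset.sum_congr rfl fun m _ => by ring

/-- Multiples. -/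
theorem invo_smul (p : ℕ) (h : ℂ → ℂ) (a : ℂ) (hh : InvO p h) : InvO p (fun z => a * h z) := by
  obtain ⟨hd, h0, Φ, c, hG, hc⟩ := hh
  have hd' : DifferentiableOn ℂ (fun z => a * h z) (ball 0 1) := hd.const_mul a
  have hco : ∀ n, N2b689f5b.coeff (fun z => a * h z) n = a * N2b689f5b.coeff h n := fun n =>
    congrFun (CO2 _ _ _ (CO1 _ hd') (ITE_ser_mul a _ _ (CO1 _ hd))) n
  refine ⟨hd', fun k => ?_, Φ, fun m => a * c m, hG, fun n => ?_⟩
  · rw [hco, h0, mul_zero]
  · rw [hco, hc n]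
    unfold cmbh
    rw [Finset.mul_sum]
    exact Finset.sum_congr rfl fun m _ => by ring

/-- The function `Q` of a Bazilevic function. -/
theorem baz_q (h1 : XS0_stmt) (F G : ℂ → ℂ) (c : ℂ) (hF : DifferentiableOn ℂ F (ball 0 1))
    (hodd : ∀ z ∈ ball (0 : ℂ) 1, F (-z) = -F z) (hG : OddStarl G)
    (hpos : ∀ z ∈ ball (0 : ℂ) 1, z ≠ 0 → 0 < (c * (z * deriv F z / G z)).re) :
    c ≠ 0 ∧ ∃ Q : ℂ → ℂ, DifferentiableOn ℂ Q (ball 0 1) ∧ (∀ z ∈ ball (0 : ℂ) 1, 0 < (Q z).re) ∧
      (∀ z ∈ ball (0 : ℂ) 1, Q (-z) = Q z) ∧ ∀ z ∈ ball (0 : ℂ) 1, z * deriv F z = c⁻¹ * (Q z * G z) := by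
  obtain ⟨Q, hQ, hQpos, hQe⟩ := h1 G F c hG.starl hF hpos
  have hopen : IsOpen (ball (0 : ℂ) 1) := isOpen_ball
  have hc : c ≠ 0 := by
    intro h0
    have hz : ((1 / 2 : ℂ)) ∈ ball (0 : ℂ) 1 := by
      rw [mem_ball_zero_iff]
      norm_num
    have h3 := hpos (1 / 2) hz (by norm_num)
    rw [h0] at h3
    simp at h3
  have hneg : ∀ z ∈ ball (0 : ℂ) 1, -z ∈ ball (0 : ℂ) 1 := by
    intro z hz
    rw [mem_ball_zero_iff] at hz ⊢
    rwa [norm_neg]
  have hder : ∀ z ∈ ball (0 : ℂ) 1, deriv F (-z) = deriv F z := by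
    intro z hz
    have e1 : HasDerivAt F (deriv F (-z)) (-z) :=
      ((hF (-z) (hneg z hz)).differentiableAt (hopen.mem_nhds (hneg z hz))).hasDerivAt
    have e2 : HasDerivAt (fun w => F (-w)) (deriv F (-z) * (-1)) z := by
      have := HasDerivAt.comp z e1 (hasDerivAt_neg z)
      exact this
    have e3 : HasDerivAt F (deriv F z) z := ((hF z hz).differentiableAt (hopen.mem_nhds hz)).hasDerivAt
    have e4 : HasDerivAt (fun w => -F w) (-deriv F z) z := e3.neg
    have e5 : (fun w => F (-w)) =ᶠ[𝓝 z] fun w => -F w :=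
      Filter.eventually_of_mem (hopen.mem_nhds hz) hodd
    have e6 := (e4.congr_of_eventuallyEq e5).unique e2
    linear_combination e6
  refine ⟨hc, Q, hQ, hQpos, ?_, ?_⟩
  · intro z hz
    by_cases hz0 : z = 0
    · rw [hz0, neg_zero]
    · have e1 := hQe z hz
      have e2 := hQe (-z) (hneg z hz)
      rw [hder z hz, hG.odd z hz] at e2
      have hgz : G z ≠ 0 := by
        intro h0
        have h3 := hpos z hz hz0
        rw [h0] at h3
        simp at h3
      have e3 : (Q (-z) - Q z) * G z = 0 := by linear_combination e1 + e2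
      rcases mul_eq_zero.1 e3 with h | h
      · exact sub_eq_zero.1 h
      · exact absurd h hgz
  · intro z hz
    have e := hQe z hz
    calc z * deriv F z = c⁻¹ * (c * (z * deriv F z)) := by field_simp
      _ = c⁻¹ * (Q z * G z) := by rw [e]

/-- Polynomials of `F²` and `F` times such polynomials. -/
theorem baz_poly (h1 : XS0_stmt) (h2 : YSE_stmt) (h3 : YSO_stmt) (F G : ℂ → ℂ) (c : ℂ)
    (hF : DifferentiableOn ℂ F (ball 0 1)) (hodd : ∀ z ∈ ball (0 : ℂ) 1, F (-z) = -F z) (hG : OddStarl G)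
    (hpos : ∀ z ∈ ball (0 : ℂ) 1, z ≠ 0 → 0 < (c * (z * deriv F z / G z)).re) (p : ℕ) :
    ∀ P : Polynomial ℂ, P.natDegree ≤ p → InvE p (fun z => P.eval (F z ^ 2)) := by
  have hopen : IsOpen (ball (0 : ℂ) 1) := isOpen_ball
  obtain ⟨hc, Q, hQ, hQpos, hQeven, hQe⟩ := baz_q h1 F G c hF hodd hG hpos
  have hF0 : F 0 = 0 := by
    have := hodd 0 (mem_ball_self one_pos)
    rw [neg_zero] at this
    linear_combination (1 / 2 : ℂ) * this
  have hFd : ∀ z ∈ ball (0 : ℂ) 1, HasDerivAt F (deriv F z) z := fun z hz =>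
    ((hF z hz).differentiableAt (hopen.mem_nhds hz)).hasDerivAt
  have hPd : ∀ (P : Polynomial ℂ), ∀ z ∈ ball (0 : ℂ) 1, HasDerivAt (fun z => P.eval (F z ^ 2))
      ((Polynomial.derivative P).eval (F z ^ 2) * (2 * F z * deriv F z)) z := by
    intro P z hz
    have e1 : HasDerivAt (fun z => F z ^ 2) (2 * F z * deriv F z) z := by
      have := (hFd z hz).pow 2
      refine this.congr_deriv ?_
      norm_num
    exact (P.hasDerivAt (F z ^ 2)).comp z e1
  induction p with
  | zero =>
    intro P hP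
    rw [Polynomial.eq_C_of_natDegree_le_zero hP]
    simp only [Polynomial.eval_C]
    exact inve_const _
  | succ p ih =>
    -- the functions `F P(F²)`
    have hO : ∀ P : Polynomial ℂ, P.natDegree ≤ p → InvO p (fun z => F z * P.eval (F z ^ 2)) := by
      intro P hP
      have hd : (P + Polynomial.C 2 * (Polynomial.X * Polynomial.derivative P)).natDegree ≤ p := by
        refine (Polynomial.natDegree_add_le _ _).trans (max_le hP ?_)
        refine (Polynomial.natDegree_C_mul_le _ _).trans ?_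
        by_cases hP0 : P.natDegree = 0
        · rw [Polynomial.eq_C_of_natDegree_eq_zero hP0]
          simp
        · refine (Polynomial.natDegree_mul_le).trans ?_
          have := Polynomial.natDegree_derivative_le P
          rw [Polynomial.natDegree_X]
          omega
      refine h2 p G (fun z => c⁻¹ * (P + Polynomial.C 2 * (Polynomial.X * Polynomial.derivative P)).eval (F z ^ 2)) _ Q
        hG (inve_smul p (fun z => (P + Polynomial.C 2 * (Polynomial.X * Polynomial.derivative P)).eval (F z ^ 2)) c⁻¹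
          (ih _ hd)) ?_ ?_ hQ hQpos hQeven ?_
      · intro z hz
        exact ((hFd z hz).mul (hPd P z hz)).differentiableAt.differentiableWithinAt
      · simp only [hF0, zero_mul]
      · intro z hz
        have e1 : HasDerivAt (fun z => F z * P.eval (F z ^ 2)) (deriv F z * P.eval (F z ^ 2) +
            F z * ((Polynomial.derivative P).eval (F z ^ 2) * (2 * F z * deriv F z))) z :=
          (hFd z hz).mul (hPd P z hz)
        rw [e1.deriv]
        simp only [Polynomial.eval_add, Polynomial.eval_mul, Polynomial.eval_C, Polynomial.eval_X]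
        linear_combination (Polynomial.eval (F z ^ 2) P + 2 * (F z ^ 2 *
          Polynomial.eval (F z ^ 2) (Polynomial.derivative P))) * hQe z hz
    intro P hP
    have hd : (Polynomial.derivative P).natDegree ≤ p :=
      (Polynomial.natDegree_derivative_le P).trans (by omega)
    refine h3 p G (fun z => (2 * c⁻¹) * (F z * (Polynomial.derivative P).eval (F z ^ 2))) _ Q hG
      (invo_smul p (fun z => F z * (Polynomial.derivative P).eval (F z ^ 2)) _ (hO _ hd)) ?_ hQ hQpos hQeven ?_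
    · intro z hz
      exact (hPd P z hz).differentiableAt.differentiableWithinAt
    · intro z hz
      rw [(hPd P z hz).deriv]
      linear_combination (2 * F z * Polynomial.eval (F z ^ 2) (Polynomial.derivative P)) * hQe z hz

/-- Coefficients depend only on the values in the disc. -/
theorem inve_congr (p : ℕ) (f h : ℂ → ℂ) (hf : InvE p f) (hh : DifferentiableOn ℂ h (ball 0 1))
    (he : ∀ z ∈ ball (0 : ℂ) 1, h z = f z) : InvE p h := by
  obtain ⟨hd, h0, Φ, c, hG, hc⟩ := hf
  have hco : N2b689f5b.coeff h = N2b689f5b.coeff f := by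
    refine CO2 h _ _ (CO1 _ hh) ?_
    intro z hz
    rw [he z hz]
    exact CO1 _ hd z hz
  refine ⟨hh, ?_, Φ, c, hG, ?_⟩
  · rw [hco]
    exact h0
  · rw [hco]
    exact hc

/-- **Goodman's inequality for the polynomials of a Bazilevic function of type 1/2.** -/
theorem YFI (h1 : XS0_stmt) (h2 : YSE_stmt) (h3 : YSO_stmt) (h4 : YGO_stmt) (φ : ℂ → ℂ) (hφ : Baz φ) (p : ℕ)
    (P : Polynomial ℂ) (hP : P.natDegree ≤ p) (n : ℕ) (hn : p < n) :
    ‖N2b689f5b.coeff (fun z => P.eval (φ z)) n‖ ≤ N2b689f5b.goodmanBound (fun z => P.eval (φ z)) p n := by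
  obtain ⟨hφa, F, G, c, hF, hodd, hG, hpos, hφe⟩ := hφ
  have hd : DifferentiableOn ℂ (fun z => P.eval (φ z)) (ball 0 1) := by
    intro z hz
    exact P.differentiable.differentiableAt.comp_differentiableWithinAt z (hφa z hz)
  have hmaps : Set.MapsTo (fun z : ℂ => z ^ 2) (ball 0 1) (ball 0 1) := by
    intro z hz
    rw [mem_ball_zero_iff] at hz ⊢
    simp only [norm_pow]
    nlinarith [norm_nonneg z]
  refine h4 p _ hd (inve_congr p _ _ (baz_poly h1 h2 h3 F G c hF hodd hG hpos p P hP) ?_ ?_) n hn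
  · exact hd.comp (fun z _ => (differentiableAt_pow 2).differentiableWithinAt) hmaps
  · intro z hz
    simp only [hφe z hz]

end Pool.Agent.GD
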