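import Pool.Agent.helper75.GH.YND

set_option autoImplicit false

namespace Pool.Agent.GD

open Finset Metric Filter Topology

theorem YNC_aux (a : ℕ → ℝ) (j p : ℕ) (h : j ≤ p) :
    (a j + if j < p then a (j + 1) else 0) + 2 * ∑ q ∈ Ioc j p, (a q + if q < p then a (q + 1) else 0) =
      ∑ k ∈ range (p + 1), a k * (if k < j then (0 : ℝ) else EH (k - j)) := by
  rw [← YND_aux a j p h, ← Finset.map_add_right_Ioc, Finset.sum_map]
  rfl

theorem YNC_range (a : ℕ → ℝ) (ha : a 0 = 0) (j p : ℕ) :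
    ∑ k ∈ range (p + 1), a k * (if k < j then (0 : ℝ) else EH (k - j)) =
      ∑ k ∈ Icc 1 p, a k * (if k < j then (0 : ℝ) else EH (k - j)) := by
  symm
  apply Finset.sum_subset
  · intro k hk
    have := mem_Icc.1 hk
    exact mem_range.2 (by omega)
  · intro k hk hk'
    have h1 := mem_range.1 hk
    have h0 : k = 0 := by
      by_contra h2
      exact hk' (mem_Icc.2 ⟨by omega, by omega⟩)
    rw [h0, ha, zero_mul]

/-- **YNC** -/
theorem YNC (h1 : YNA_stmt) : YNC_stmt := by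
  intro p n j hjp hpn
  have hA0 : ∀ m, AA p m 0 = 0 := by
    intro m
    unfold AA
    simp
  have hB : BH p n j = AH p n j + 2 * ∑ q ∈ Ioc j p, AH p n q := rfl
  have hsum : ∑ q ∈ Ioc j p, AH p n q = ∑ q ∈ Ioc j p, (if q = p then (1 : ℝ) else 0) +
      ∑ m ∈ Ioc p n, ∑ q ∈ Ioc j p, (AA p m q + if q < p then AA p m (q + 1) else 0) := by
    rw [Finset.sum_comm, ← Finset.sum_add_distrib]
    apply Finset.sum_congr rfl
    intro q hq
    rw [mem_Ioc] at hq
    exact h1 p n q hq.2 hpn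
  have hbd : TH (p - j) = (if j = p then (1 : ℝ) else 0) + 2 * ∑ q ∈ Ioc j p, (if q = p then (1 : ℝ) else 0) := by
    rw [Finset.sum_ite_eq']
    unfold TH
    by_cases hp : j = p
    · subst hp
      simp
    · rw [if_neg (by omega), if_neg hp, if_pos (mem_Ioc.mpr ⟨by omega, le_rfl⟩)]
      ring
  have hin : ∑ m ∈ Ioc p n, ∑ k ∈ Icc 1 p, AA p m k * (if k < j then 0 else EH (k - j)) =
      ∑ m ∈ Ioc p n, ((AA p m j + if j < p then AA p m (j + 1) else 0) +
        2 * ∑ q ∈ Ioc j p, (AA p m q + if q < p then AA p m (q + 1) else 0)) := by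
    apply Finset.sum_congr rfl
    intro m _
    rw [YNC_aux (AA p m) j p hjp, YNC_range (AA p m) (hA0 m) j p]
  rw [hin, hbd, hB, hsum, h1 p n j hjp hpn, Finset.sum_add_distrib, ← Finset.mul_sum]
  ring

end Pool.Agent.GD
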