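import Pool.Agent.helper65.GF.SpecG

set_option autoImplicit false

namespace Pool.Agent.GD

open Finset Metric Filter Topology

theorem YNE_mono (n k : ℕ) (hk : 2 ≤ k) (hn : k ≤ n / 2) : n.choose 2 ≤ n.choose k := by
  induction k, hk using Nat.le_induction with
  | base => exact le_refl _
  | succ k hk ih =>
    exact (ih (by omega)).trans (Nat.choose_le_succ_of_lt_half_left (by omega))

theorem YNE_num (k s : ℕ) (hk : 1 ≤ k) :
    (2 * (s : ℝ) + 1) * ((k : ℝ) + s + 1) ≤ k * (((2 * k + 2 * s + 2).choose (s + 1) : ℕ) : ℝ) := by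
  have hk' : (1 : ℝ) ≤ (k : ℝ) := by exact_mod_cast hk
  have hs' : (0 : ℝ) ≤ (s : ℝ) := Nat.cast_nonneg s
  by_cases h0 : s = 0
  · subst h0
    simp only [Nat.choose_one_right, mul_zero, zero_add, add_zero]
    push_cast
    nlinarith
  · have h3 := YNE_mono (2 * k + 2 * s + 2) (s + 1) (by omega) (by omega)
    have e1 := Nat.add_one_mul_choose_eq (2 * k + 2 * s + 1) 1
    rw [Nat.choose_one_right] at e1
    have r1 : ((2 * k + 2 * s + 2 : ℕ) : ℝ) * ((2 * k + 2 * s + 1 : ℕ) : ℝ) =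
        (((2 * k + 2 * s + 2).choose 2 : ℕ) : ℝ) * 2 := by exact_mod_cast e1
    have r3 : (((2 * k + 2 * s + 2).choose 2 : ℕ) : ℝ) ≤ (((2 * k + 2 * s + 2).choose (s + 1) : ℕ) : ℝ) := by
      exact_mod_cast h3
    push_cast at r1
    have r4 : ((k : ℝ) + s + 1) * (2 * k + 2 * s + 1) ≤ (((2 * k + 2 * s + 2).choose (s + 1) : ℕ) : ℝ) := by
      refine le_trans (le_of_eq ?_) r3
      linear_combination (1 / 2 : ℝ) * r1
    have r5 : (2 * (s : ℝ) + 1) * ((k : ℝ) + s + 1) ≤ k * (((k : ℝ) + s + 1) * (2 * k + 2 * s + 1)) := by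
      have h1 : (0 : ℝ) ≤ (k : ℝ) + s + 1 := by linarith
      have h2 : 2 * (s : ℝ) + 1 ≤ k * (2 * k + 2 * s + 1) := by nlinarith
      calc (2 * (s : ℝ) + 1) * ((k : ℝ) + s + 1) ≤ (k * (2 * k + 2 * s + 1)) * ((k : ℝ) + s + 1) :=
            mul_le_mul_of_nonneg_right h2 h1
        _ = k * (((k : ℝ) + s + 1) * (2 * k + 2 * s + 1)) := by ring
    exact r5.trans (mul_le_mul_of_nonneg_left r4 (by linarith))

theorem YNE : YNE_stmt := by
  intro p m j hj hm
  refine le_trans ?_ (h_XN2 p m (j + 1) (by omega) (by omega) hm)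
  obtain ⟨s, rfl⟩ : ∃ s, p = (j + 1) + s := ⟨p - (j + 1), by omega⟩
  have hA := XN1_AA (j + 1) s
  have hn := YNE_num (j + 1) s (by omega)
  rw [← hA] at hn
  have hpos : (0 : ℝ) < ((j + 1 : ℕ) : ℝ) + s + 1 := by positivity
  have h := le_of_mul_le_mul_right hn hpos
  refine le_trans (le_of_eq ?_) h
  push_cast
  ring

end Pool.Agent.GD
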