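import Pool.Agent.helper65.GF.SpecG

set_option autoImplicit false

/-! # The half step `z f' = Q G h` from odd to even functions -/

namespace Pool.Agent.GD

open Finset Metric Filter Topology

theorem YSO_pair (a : ℕ → ℂ) (K : ℕ) :
    ∑ m ∈ range (2 * K), a m = ∑ l ∈ range K, (a (2 * l) + a (2 * l + 1)) := by
  induction K with
  | zero => simp
  | succ K ih =>
    rw [show 2 * (K + 1) = 2 * K + 1 + 1 by ring, Finset.sum_range_succ, Finset.sum_range_succ, ih,
      Finset.sum_range_succ]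
    ring

theorem YSO (h1 : YHD_stmt) (h2 : YMB_stmt) (h3 : YPB_stmt) (h4 : YG1_stmt) (h5 : YG2_stmt) : YSO_stmt := by
  intro p G h f Q hg hh hf hQ hpos hev he
  obtain ⟨hd, heven, Φ, c₀, hG, hc⟩ := hh
  obtain ⟨β, hβ, hgc⟩ := h4 G hg
  obtain ⟨q, κ, hq, hκ, hQc, hκq⟩ := h5 Q hQ hpos hev
  have hω : ∀ n, cv (ex (-1) β) (ex 1 β) n = dl n := by
    intro n
    rw [h_XEM.1, show (-1 : ℂ) + 1 = 0 by norm_num, h_XEM.2]
  have hD := h1 β κ hβ hκ
  obtain ⟨ps1, ps2, ps3⟩ := h3 p (ex 1 β) Φ hG (ex_zero 1 β)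
  obtain ⟨Ψ, hΨ, hstep⟩ := h_XM2 (p + 1) q (psk (ex 1 β) Φ) hq.1 (rgb_holds q hq) ps1 ps2
    (h2 p q κ (ex 1 β) (ex (-1) β) _ Φ hG hκq hω hD)
  -- the coefficients of `G h`
  have hFe : ∀ k, ∑ m ∈ range (2 * k + 1), N2b689f5b.coeff h m * N2b689f5b.coeff G (2 * k - m) =
      deriv G 0 * gs (ex 1 β) (fun r => N2b689f5b.coeff h (2 * r + 1)) k := by
    intro k
    rw [Finset.sum_range_succ, Nat.sub_self, heven k, zero_mul, add_zero, YSO_pair]
    unfold gs
    rw [Finset.mul_sum]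
    refine Finset.sum_congr rfl fun l hl => ?_
    have hl' := mem_range.1 hl
    rw [heven l, zero_mul, zero_add, show 2 * k - (2 * l + 1) = 2 * (k - 1 - l) + 1 by omega, (hgc (k - 1 - l)).2]
    ring
  have hFo : ∀ k, ∑ m ∈ range (2 * k + 1 + 1), N2b689f5b.coeff h m * N2b689f5b.coeff G (2 * k + 1 - m) = 0 := by
    intro k
    refine Finset.sum_eq_zero fun m hm => ?_
    have hm' := mem_range.1 hm
    rcases Nat.even_or_odd' m with ⟨l, hl | hl⟩
    · rw [hl, heven l, zero_mul]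
    · rw [show 2 * k + 1 - m = 2 * (k - l) by omega, (hgc (k - l)).1, mul_zero]
  have hcm : ∀ n, 2 * cmb (p + 1) (psk (ex 1 β) Φ) (fun m => Q 0 * deriv G 0 / 2 * c₀ (m - 1)) n =
      Q 0 * (deriv G 0 * gs (ex 1 β) (fun r => N2b689f5b.coeff h (2 * r + 1)) n) := by
    intro n
    rw [ps3]
    unfold gs
    rw [Finset.mul_sum, Finset.mul_sum, Finset.mul_sum]
    refine Finset.sum_congr rfl fun r _ => ?_
    have e : cmbh p Φ (fun m => Q 0 * deriv G 0 / 2 * c₀ (m + 1 - 1)) r = Q 0 * deriv G 0 / 2 * cmbh p Φ c₀ r := by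
      unfold cmbh
      rw [Finset.mul_sum]
      refine Finset.sum_congr rfl fun m _ => ?_
      simp only [Nat.add_sub_cancel]
      ring
    beta_reduce
    rw [e, hc r]
    ring
  -- the equation
  have s1 : Ser (fun n : ℕ => (n : ℂ) * N2b689f5b.coeff f n) (fun z => z * deriv f z) := (CO4 f _ (CO1 f hf)).2
  have s2 : Ser (fun n => ∑ m ∈ range (n + 1), N2b689f5b.coeff h m * N2b689f5b.coeff G (n - m))
      (fun z => h z * G z) := CO3 h G _ _ (CO1 h hd) (CO1 G hg.starl.analytic)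
  have s3 := CO3 _ Q _ _ s2 (CO1 Q hQ)
  have s4 : Ser (fun n : ℕ => (n : ℂ) * N2b689f5b.coeff f n) (fun z => h z * G z * Q z) := by
    intro z hz
    have h8 : HasSum (fun n : ℕ => (n : ℂ) * N2b689f5b.coeff f n * z ^ n) (z * deriv f z) := s1 z hz
    rw [he z hz, show Q z * (G z * h z) = h z * G z * Q z by ring] at h8
    exact h8
  have hcoef := CO2 _ _ _ s4 s3
  have heven' : ∀ k : ℕ, (k : ℂ) * N2b689f5b.coeff f (2 * k) =
      cv q (cmb (p + 1) (psk (ex 1 β) Φ) (fun m => Q 0 * deriv G 0 / 2 * c₀ (m - 1))) k := by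
    intro k
    have h9 := congrFun hcoef (2 * k)
    push_cast at h9
    have h10 : ∑ m ∈ range (2 * k + 1), (∑ i ∈ range (m + 1), N2b689f5b.coeff h i * N2b689f5b.coeff G (m - i)) *
        N2b689f5b.coeff Q (2 * k - m) =
        2 * cv q (cmb (p + 1) (psk (ex 1 β) Φ) (fun m => Q 0 * deriv G 0 / 2 * c₀ (m - 1))) k := by
      rw [Finset.sum_range_succ, YSO_pair]
      unfold cv
      conv_rhs => rw [Finset.mul_sum, Finset.sum_range_succ]
      congr 1
      · refine Finset.sum_congr rfl fun l hl => ?_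
        have hl' := mem_range.1 hl
        rw [hFo l, zero_mul, add_zero, hFe l, show 2 * k - 2 * l = 2 * (k - l) by omega, (hQc (k - l)).1]
        linear_combination (-q (k - l)) * hcm l
      · have hQ0 : N2b689f5b.coeff Q 0 = Q 0 * q 0 := (hQc 0).1
        rw [hFe k, Nat.sub_self, Nat.sub_self, hQ0]
        linear_combination (-q 0) * hcm k
    have h11 : 2 * ((k : ℂ) * N2b689f5b.coeff f (2 * k)) =
        2 * cv q (cmb (p + 1) (psk (ex 1 β) Φ) (fun m => Q 0 * deriv G 0 / 2 * c₀ (m - 1))) k := by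
      rw [← h10, ← h9]
      ring
    exact mul_left_cancel₀ two_ne_zero h11
  have hodd' : ∀ k : ℕ, N2b689f5b.coeff f (2 * k + 1) = 0 := by
    intro k
    have h9 := congrFun hcoef (2 * k + 1)
    rw [Finset.sum_eq_zero] at h9
    · rcases mul_eq_zero.1 h9 with h10 | h10
      · exfalso
        have : (2 * k + 1 : ℕ) ≠ 0 := by omega
        exact this (by exact_mod_cast h10)
      · exact h10
    · intro m hm
      have hm' := mem_range.1 hm
      rcases Nat.even_or_odd' m with ⟨l, hl | hl⟩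
      · rw [show 2 * k + 1 - m = 2 * (k - l) + 1 by omega, (hQc (k - l)).2, mul_zero]
      · subst hl
        rw [hFo l, zero_mul]
  obtain ⟨c', hc'⟩ := hstep _ (fun k => N2b689f5b.coeff f (2 * k)) heven'
  exact ⟨hf, hodd', Ψ, c', hΨ, fun k hk => hc' k hk⟩

end Pool.Agent.GD
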