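import Pool.Agent.helper66.GH.YNA
import Pool.Agent.helper27.GH.YNB
import Pool.Agent.helper65.GH.YNC
import Pool.Agent.helper75.GH.YND
import Pool.Agent.helper65.GH.YNE
import Pool.Agent.helper72.GH.YNF
import Pool.Agent.helper76.GH.YNU
import Pool.Agent.helper25.GH.YNV
import Pool.Agent.helper84.GH.YNW
import Pool.Agent.helper11.GH.YST
import Pool.Agent.helper68.GH.YLI
import Pool.Agent.helper78.GH.YM1
import Pool.Agent.helper42.GH.YM2
import Pool.Agent.helper12.GH.YVB
import Pool.Agent.helper59.GH.YUB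
import Pool.Agent.helper21.GH.YUM
import Pool.Agent.helper48.GH.YHC
import Pool.Agent.helper15.GH.YHZ
import Pool.Agent.helper81.GH.YHE
import Pool.Agent.helper36.GH.YHP
import Pool.Agent.helper2.GH.YHD
import Pool.Agent.helper61.GH.YF1
import Pool.Agent.helper58.GH.YF2
import Pool.Agent.helper21.GH.YPA
import Pool.Agent.helper63.GH.YPB
import Pool.Agent.helper5.GH.YMA
import Pool.Agent.helper87.GH.YMB
import Pool.Agent.helper31.GH.YG1
import Pool.Agent.helper33.GH.YG2
import Pool.Agent.helper98.GH.YSE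
import Pool.Agent.helper65.GH.YSO
import Pool.Agent.helper60.GH.YGO
import Pool.Agent.helper65.GH.YFI

set_option autoImplicit false

/-! # Goodman's inequality for polynomials of Bazilevic functions of type 1/2: assembly -/

namespace Pool.Agent.GD

open Metric

theorem h_YNA : YNA_stmt := YNA

theorem h_YNB : YNB_stmt := YNB

theorem h_YNC : YNC_stmt := YNC h_YNA

theorem h_YND : YND_stmt := YND h_YNB

theorem h_YNE : YNE_stmt := YNE

theorem h_YNF : YNF_stmt := YNF

theorem h_YNU : YNU_stmt := YNU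

theorem h_YNV : YNV_stmt := YNV

theorem h_YNW : YNW_stmt := YNW h_YNU h_YNV

theorem h_YST : YST_stmt := YST h_YNW

theorem h_YLI : YLI_stmt := YLI

theorem h_YM1 : YM1_stmt := YM1 h_YST h_YLI

theorem h_YM2 : YM2_stmt := YM2 h_YM1

theorem h_YVB : YVB_stmt := YVB

theorem h_YUB : YUB_stmt := YUB

theorem h_YUM : YUM_stmt := YUM h_YUB

theorem h_YHC : YHC_stmt := YHC h_YVB h_YUM

theorem h_YHZ : YHZ_stmt := YHZ h_YVB h_YHC

theorem h_YHE : YHE_stmt := YHE

theorem h_YHP : YHP_stmt := YHP h_YHZ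

theorem h_YHD : YHD_stmt := YHD h_YVB h_YHE h_YHP

theorem h_YF1 : YF1_stmt := YF1 h_YNC h_YNE

theorem h_YF2 : YF2_stmt := YF2 h_YND h_YNF h_YNW

theorem h_YPA : YPA_stmt := YPA

theorem h_YPB : YPB_stmt := YPB

theorem h_YMA : YMA_stmt := YMA h_YPA h_YF1

theorem h_YMB : YMB_stmt := YMB h_YPB h_YF2

theorem h_YG1 : YG1_stmt := YG1

theorem h_YG2 : YG2_stmt := YG2

theorem h_YSE : YSE_stmt := YSE h_YHD h_YM2 h_YMA h_YPA h_YG1 h_YG2

theorem h_YSO : YSO_stmt := YSO h_YHD h_YMB h_YPB h_YG1 h_YG2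

theorem h_YGO : YGO_stmt := YGO

end Pool.Agent.GD
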